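import Pool.Agent.H.MP_930073_lc.Defs

namespace Pool.Agent.H.MP_930073_lc

open Set MeasureTheory

abbrev Z := ℕ → ℕ
abbrev Y := ℕ → Bool

instance polY : PolishSpace Y := ⟨⟩
instance polYY : PolishSpace (Y × Y) := ⟨⟩
instance polYYY : PolishSpace (Y × Y × Y) := ⟨⟩

theorem ana_inter {α : Type*} [TopologicalSpace α] [T2Space α] {s t : Set α}
    (hs : AnalyticSet s) (ht : AnalyticSet t) : AnalyticSet (s ∩ t) := by
  have : s ∩ t = ⋂ b : Bool, cond b s t := by
    ext x; simp [Bool.forall_bool, and_comm]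
  rw [this]
  exact AnalyticSet.iInter fun b => by cases b <;> assumption

theorem ana_union {α : Type*} [TopologicalSpace α] {s t : Set α}
    (hs : AnalyticSet s) (ht : AnalyticSet t) : AnalyticSet (s ∪ t) := by
  have : s ∪ t = ⋃ b : Bool, cond b s t := by
    ext x; simp [Bool.exists_bool, or_comm]
  rw [this]
  exact AnalyticSet.iUnion fun b => by cases b <;> assumption

theorem ana_pre {α β : Type*} [TopologicalSpace α] [PolishSpace α] [MeasurableSpace α]
    [BorelSpace α] [TopologicalSpace β] [PolishSpace β] [MeasurableSpace β] [BorelSpace β]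
    {s : Set β} (hs : AnalyticSet s) {f : α → β} (hf : Measurable f) : AnalyticSet (f ⁻¹' s) := by
  rw [AnalyticSet] at hs
  rcases hs with rfl | ⟨G, hG, rfl⟩
  · simpa using analyticSet_empty
  · have hB : MeasurableSet {q : Z × α | G q.1 = f q.2} :=
      measurableSet_eq_fun (hG.measurable.comp measurable_fst) (hf.comp measurable_snd)
    have : PolishSpace (Z × α) := ⟨⟩
    have := hB.analyticSet.image_of_continuous (f := Prod.snd) continuous_snd
    convert this using 1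
    ext p
    simp

abbrev Q := Z × Y × Y

theorem exists_basis : ∃ b : ℕ → Set Q, (∀ n, IsOpen (b n)) ∧
    ∀ K : Set Q, IsClosed K → ∃ p : Y, ∀ q, q ∈ K ↔ ∀ n, p n = true → q ∉ b n := by
  classical
  obtain ⟨B, hBc, -, hB⟩ := TopologicalSpace.exists_countable_basis Q
  have hne : B.Nonempty := by
    obtain ⟨s, hs, -⟩ := hB.exists_subset_of_mem_open (a := (default : Q)) (mem_univ _) isOpen_univ
    exact ⟨s, hs⟩
  obtain ⟨b, hb⟩ := hBc.exists_eq_range hne
  refine ⟨b, fun n => hB.isOpen (hb ▸ mem_range_self n), fun K hK => ?_⟩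
  refine ⟨fun n => decide (b n ⊆ Kᶜ), fun q => ⟨fun hq n hn hqn => ?_, fun h => ?_⟩⟩
  · exact (of_decide_eq_true hn) hqn hq
  · by_contra hq
    obtain ⟨s, hs, hqs, hsK⟩ := hB.exists_subset_of_mem_open (a := q) hq hK.isOpen_compl
    rw [hb] at hs
    obtain ⟨n, rfl⟩ := hs
    exact h n (decide_eq_true hsK) hqs

noncomputable def bas : ℕ → Set Q := exists_basis.choose

def r (p x y : Y) : Prop := ∃ w : Z, ∀ n, p n = true → (w, x, y) ∉ bas n

theorem r_univ (G : Set (Y × Y)) (hG : AnalyticSet G) : ∃ p, ∀ x y, r p x y ↔ (x, y) ∈ G := by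
  rw [AnalyticSet] at hG
  rcases hG with rfl | ⟨f, hf, rfl⟩
  · obtain ⟨p, hp⟩ := exists_basis.choose_spec.2 ∅ isClosed_empty
    refine ⟨p, fun x y => ⟨fun ⟨w, hw⟩ => ((hp _).2 hw).elim, fun h => h.elim⟩⟩
  · have hK : IsClosed {q : Q | f q.1 = q.2} := isClosed_eq (hf.comp continuous_fst) continuous_snd
    obtain ⟨p, hp⟩ := exists_basis.choose_spec.2 _ hK
    refine ⟨p, fun x y => ⟨fun ⟨w, hw⟩ => ⟨w, (hp (w, x, y)).2 hw⟩, fun ⟨w, hw⟩ =>
      ⟨w, (hp (w, x, y)).1 hw⟩⟩⟩

theorem closed_step {α : Type*} [TopologicalSpace α] (p : α → Y) (q : α → Q) (hp : Continuous p)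
    (hq : Continuous q) : IsClosed {a | ∀ n, p a n = true → q a ∉ bas n} := by
  have : {a | ∀ n, p a n = true → q a ∉ bas n} =
      ⋂ n, ({a | p a n = false} ∪ (q ⁻¹' bas n)ᶜ) := by
    ext a
    simp only [mem_ofPred_eq, mem_iInter, mem_union, mem_compl_iff, mem_preimage]
    refine forall_congr' fun n => ?_
    cases p a n <;> simp
  rw [this]
  refine isClosed_iInter fun n => IsClosed.union ?_ ?_
  · exact isClosed_eq ((continuous_apply n).comp hp) continuous_const
  · exact ((exists_basis.choose_spec.1 n).preimage hq).isClosed_compl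

theorem ana_r : AnalyticSet {a : Y × Y × Y | r a.1 a.2.1 a.2.2} := by
  have : PolishSpace (Z × Y × Y × Y) := ⟨⟩
  have h := (closed_step (α := Z × Y × Y × Y) (fun a => a.2.1) (fun a => (a.1, a.2.2))
    (by fun_prop) (by fun_prop)).analyticSet.image_of_continuous (f := Prod.snd) continuous_snd
  convert h using 1
  ext a
  simp [r]

def U (p : Y) : Y → Y → Prop := Relation.ReflTransGen (r p)

theorem rtg_iff {α : Type*} (s : α → α → Prop) (x y : α) : Relation.ReflTransGen s x y ↔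
    ∃ (n : ℕ) (c : ℕ → α), c 0 = x ∧ c n = y ∧ ∀ i, i < n → s (c i) (c (i + 1)) := by
  constructor
  · intro h
    induction h with
    | refl => exact ⟨0, fun _ => x, rfl, rfl, fun i hi => absurd hi (by omega)⟩
    | @tail b d _ hbd ih =>
      obtain ⟨n, c, h0, hn, hc⟩ := ih
      refine ⟨n + 1, fun i => if i ≤ n then c i else d, by simp [h0], by simp, fun i hi => ?_⟩
      have h1 : i ≤ n := by omega
      by_cases h2 : i + 1 ≤ n
      · simp only [h1, h2, if_true]
        exact hc i (by omega)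
      · have : i = n := by omega
        subst this
        simp only [h1, h2, if_true, if_false]
        rw [hn]
        exact hbd
  · rintro ⟨n, c, rfl, rfl, hc⟩
    induction n with
    | zero => exact Relation.ReflTransGen.refl
    | succ n ih =>
      exact Relation.ReflTransGen.tail (ih fun i hi => hc i (by omega)) (hc n (by omega))

theorem ana_U : AnalyticSet {a : Y × Y × Y | U a.1 a.2.1 a.2.2} := by
  have : PolishSpace (((ℕ → Y) × (ℕ → Z)) × Y × Y × Y) := ⟨⟩
  have key : ∀ n : ℕ, IsClosed {a : ((ℕ → Y) × (ℕ → Z)) × Y × Y × Y | a.1.1 0 = a.2.2.1 ∧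
      a.1.1 n = a.2.2.2 ∧ ∀ i, i < n → ∀ m, a.2.1 m = true →
        (a.1.2 i, a.1.1 i, a.1.1 (i + 1)) ∉ bas m} := by
    intro n
    refine IsClosed.inter (isClosed_eq (by fun_prop) (by fun_prop))
      (IsClosed.inter (isClosed_eq (by fun_prop) (by fun_prop)) ?_)
    have : IsClosed (⋂ i, ⋂ (_ : i < n), {a : ((ℕ → Y) × (ℕ → Z)) × Y × Y × Y |
        ∀ m, a.2.1 m = true → (a.1.2 i, a.1.1 i, a.1.1 (i + 1)) ∉ bas m}) :=
      isClosed_iInter fun i => isClosed_iInter fun _ =>
        closed_step _ _ (by fun_prop) (by fun_prop)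
    have e : (⋂ i, ⋂ (_ : i < n), {a : ((ℕ → Y) × (ℕ → Z)) × Y × Y × Y |
        ∀ m, a.2.1 m = true → (a.1.2 i, a.1.1 i, a.1.1 (i + 1)) ∉ bas m}) =
        {a : ((ℕ → Y) × (ℕ → Z)) × Y × Y × Y | ∀ i, i < n → ∀ m, a.2.1 m = true →
        (a.1.2 i, a.1.1 i, a.1.1 (i + 1)) ∉ bas m} := by
      ext a
      simp only [mem_iInter, mem_ofPred_eq]
    rw [e] at this
    exact this
  have h := AnalyticSet.iUnion fun n =>
    (key n).analyticSet.image_of_continuous (f := Prod.snd) continuous_snd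
  convert h using 1
  ext a
  simp only [U, rtg_iff, mem_ofPred_eq, mem_iUnion, mem_image]
  constructor
  · rintro ⟨n, c, h0, hn, hc⟩
    have : ∀ i, ∃ w : Z, i < n → ∀ m, a.1 m = true → (w, c i, c (i + 1)) ∉ bas m := by
      intro i
      by_cases hi : i < n
      · obtain ⟨w, hw⟩ := hc i hi
        exact ⟨w, fun _ => hw⟩
      · exact ⟨0, fun h => absurd h hi⟩
    choose w hw using this
    exact ⟨n, ((c, w), a), ⟨h0, hn, hw⟩, rfl⟩
  · rintro ⟨n, ⟨⟨c, w⟩, a'⟩, ⟨h0, hn, hw⟩, rfl⟩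
    exact ⟨n, c, h0, hn, fun i hi => ⟨w i, hw i hi⟩⟩

def A : Set Y := {t | r t t t}

theorem ana_A : AnalyticSet A :=
  ana_r.preimage (f := fun t : Y => (t, t, t)) (by fun_prop)

theorem not_meas_A : ¬ MeasurableSet A := by
  intro h
  have : MeasurableSet (Prod.fst ⁻¹' Aᶜ : Set (Y × Y)) := measurable_fst h.compl
  obtain ⟨p, hp⟩ := r_univ _ this.analyticSet
  have := hp p p
  simp only [mem_preimage, mem_compl_iff, A, mem_ofPred_eq] at this
  tauto

theorem univ_U (W : Type) [TopologicalSpace W] [PolishSpace W] [MeasurableSpace W] [BorelSpace W]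
    [Nonempty W] (R : W → W → Prop) (hR : IsAnalyticQO R) :
    ∃ (p : Y) (e : W → Y) (v : Y → W), Measurable e ∧ Measurable v ∧ (∀ w, v (e w) = w) ∧
      ∀ x y, U p x y ↔ R (v x) (v y) := by
  obtain ⟨e, he, hinj⟩ := MeasurableSpace.measurable_injection_nat_bool_of_countablySeparated W
  have hemb : MeasurableEmbedding e := he.measurableEmbedding hinj
  let v : Y → W := hemb.invFun
  have hv : Measurable v := hemb.measurable_invFun
  have : PolishSpace (W × W) := ⟨⟩
  have h := ana_pre hR.2.2 (f := fun q : Y × Y => (v q.1, v q.2))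
    ((hv.comp measurable_fst).prodMk (hv.comp measurable_snd))
  obtain ⟨p, hp⟩ := r_univ _ h
  refine ⟨p, e, v, he, hv, hemb.leftInverse_invFun, fun x y => ⟨fun hxy => ?_, fun hxy => ?_⟩⟩
  · induction hxy with
    | refl => exact hR.1 _
    | tail _ hbd ih => exact hR.2.1 _ _ _ ih ((hp _ _).1 hbd)
  · exact Relation.ReflTransGen.single ((hp _ _).2 hxy)

/-- points: (parameter, point, marker) -/
abbrev X := Y × Y × Y

def S0 (a b : X) : Prop := a.1 = b.1 ∧ U a.1 a.2.1 b.2.1

def S (a b : X) : Prop := a = b ∨ (a.2.2 ∈ A ∧ b.2.2 ∈ A ∧ S0 a b)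

def E (a b : X) : Prop := S a b ∧ S b a

def F (a b : X) : Prop := a.2.2 = b.2.2 ∧ E a b

instance polXX : PolishSpace (X × X) := ⟨⟩

theorem S_trans (a b c : X) (h1 : S a b) (h2 : S b c) : S a c := by
  rcases h1 with rfl | ⟨ha, hb, h1, h1'⟩
  · exact h2
  rcases h2 with rfl | ⟨-, hc, h2, h2'⟩
  · exact Or.inr ⟨ha, hb, h1, h1'⟩
  · refine Or.inr ⟨ha, hc, h1.trans h2, ?_⟩
    rw [← h1] at h2'
    exact Relation.ReflTransGen.trans h1' h2'

theorem ana_S : AnalyticSet {q : X × X | S q.1 q.2} := by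
  have h1 : AnalyticSet {q : X × X | q.1 = q.2} :=
    (isClosed_eq continuous_fst continuous_snd).analyticSet
  have h2 := ana_A.preimage (f := fun q : X × X => q.1.2.2) (by fun_prop)
  have h3 := ana_A.preimage (f := fun q : X × X => q.2.2.2) (by fun_prop)
  have h4 : AnalyticSet {q : X × X | q.1.1 = q.2.1} :=
    (isClosed_eq (by fun_prop) (by fun_prop)).analyticSet
  have h5 := ana_U.preimage (f := fun q : X × X => (q.1.1, q.1.2.1, q.2.2.1)) (by fun_prop)
  exact ana_union h1 (ana_inter h2 (ana_inter h3 (ana_inter h4 h5)))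

theorem ana_E : AnalyticSet {q : X × X | E q.1 q.2} :=
  ana_inter ana_S (ana_S.preimage (f := Prod.swap) continuous_swap)

theorem ana_F : AnalyticSet {q : X × X | F q.1 q.2} :=
  ana_inter (s := {q : X × X | q.1.2.2 = q.2.2.2})
    (isClosed_eq (by fun_prop) (by fun_prop)).analyticSet ana_E

theorem qo_S : IsAnalyticQO S := ⟨fun _ => Or.inl rfl, S_trans, ana_S⟩

theorem qo_E : IsAnalyticQO E :=
  ⟨fun _ => ⟨Or.inl rfl, Or.inl rfl⟩, fun _ _ _ h1 h2 =>
    ⟨S_trans _ _ _ h1.1 h2.1, S_trans _ _ _ h2.2 h1.2⟩, ana_E⟩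

theorem qo_F : IsAnalyticQO F :=
  ⟨fun _ => ⟨rfl, qo_E.1 _⟩, fun _ _ _ h1 h2 =>
    ⟨h1.1.trans h2.1, qo_E.2.1 _ _ _ h1.2 h2.2⟩, ana_F⟩

theorem A_ne : A.Nonempty := by
  by_contra h
  rw [not_nonempty_iff_eq_empty] at h
  exact not_meas_A (h ▸ MeasurableSet.empty)

theorem S_fib (p x y t : Y) (ht : t ∈ A) : S (p, x, t) (p, y, t) ↔ U p x y := by
  constructor
  · rintro (h | ⟨-, -, -, h⟩)
    · have : x = y := congrArg (fun a : X => a.2.1) h
      subst this
      exact Relation.ReflTransGen.refl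
    · exact h
  · intro h
    exact Or.inr ⟨ht, ht, rfl, h⟩

theorem univ_F : InvUniversal S F := by
  intro W _ _ _ _ R hR
  rcases isEmpty_or_nonempty W with hW | hW
  · refine ⟨∅, MeasurableSet.empty, fun _ _ h => h.elim, ⟨fun a => a.2.elim, ?_, fun a => a.2.elim⟩,
      ⟨fun w => hW.elim w, measurable_of_empty _, fun w => hW.elim w⟩⟩
    exact measurable_of_empty _
  obtain ⟨p, e, v, he, hv, hve, hU⟩ := univ_U W R hR
  obtain ⟨t, ht⟩ := A_ne
  refine ⟨{a | a.1 = p ∧ a.2.2 = t}, ?_, ?_, ⟨fun a => v a.1.2.1, ?_, ?_⟩,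
    ⟨fun w => ⟨(p, e w, t), rfl, rfl⟩, ?_, ?_⟩⟩
  · exact (measurable_fst (measurableSet_singleton p)).inter
      (measurable_snd.snd (measurableSet_singleton t))
  · rintro a b ⟨h1, h2⟩ ⟨h3, h4, -⟩
    refine ⟨?_, h3 ▸ h2⟩
    rcases h4 with rfl | ⟨-, -, h4, -⟩
    · exact h1
    · exact h4 ▸ h1
  · exact hv.comp measurable_subtype_coe.snd.fst
  · rintro ⟨⟨p1, x, t1⟩, rfl, rfl⟩ ⟨⟨p2, y, t2⟩, h1, h2⟩
    simp only at h1 h2
    subst h1 h2
    rw [← hU]
    exact S_fib _ _ _ _ ht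
  · exact Measurable.subtype_mk (measurable_const.prodMk (he.prodMk measurable_const))
  · intro x y
    simp only
    rw [S_fib _ _ _ _ ht, hU, hve, hve]

theorem red_EF : BorelRed E F := by
  obtain ⟨p, e, v, he, hv, hve, hU⟩ := univ_U X E qo_E
  obtain ⟨t, ht⟩ := A_ne
  refine ⟨fun a => (p, e a, t), measurable_const.prodMk (he.prodMk measurable_const),
    fun a b => ?_⟩
  have h : ∀ a b, S (p, e a, t) (p, e b, t) ↔ E a b := by
    intro a b
    rw [S_fib _ _ _ _ ht, hU, hve, hve]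
  constructor
  · intro hab
    exact ⟨rfl, (h _ _).2 hab, (h _ _).2 hab.symm⟩
  · intro hab
    exact (h _ _).1 hab.2.1

theorem not_univ_E : ¬ InvUniversal S E := by
  intro h
  obtain ⟨B, hB, hinv, ⟨g, -, hg⟩, ⟨f, -, hf⟩⟩ := h Bool (· ≤ ·)
    ⟨le_refl, fun _ _ _ => le_trans, (isClosed_discrete _).analyticSet⟩
  have h01 : S (f false).1 (f true).1 := (hf false true).1 (Bool.false_le true)
  have hne : (f false).1 ≠ (f true).1 := by
    intro he
    have : S (f true).1 (f false).1 := Or.inl he.symm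
    exact absurd ((hf true false).2 this) (by decide)
  rcases h01 with h01 | ⟨ha, -, -⟩
  · exact hne h01
  generalize f false = w at ha
  obtain ⟨⟨p, x, t⟩, hmem⟩ := w
  have hsub : ∀ t' ∈ A, (p, x, t') ∈ B := fun t' ht' =>
    hinv _ _ hmem ⟨Or.inr ⟨ha, ht', rfl, Relation.ReflTransGen.refl⟩,
      Or.inr ⟨ht', ha, rfl, Relation.ReflTransGen.refl⟩⟩
  have hm : MeasurableSet {t' : Y | (p, x, t') ∈ B} :=
    (measurable_const.prodMk (measurable_const.prodMk measurable_id)) hB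
  have : ∃ t', (p, x, t') ∈ B ∧ t' ∉ A := by
    by_contra hc
    push Not at hc
    apply not_meas_A
    convert hm using 1
    ext t'
    exact ⟨hsub t', hc t'⟩
  obtain ⟨t', hB', hA'⟩ := this
  have hne' : t ≠ t' := fun h => hA' (h ▸ ha)
  rcases le_total (g ⟨_, hmem⟩) (g ⟨_, hB'⟩) with h | h
  · rcases (hg _ _).2 h with h | ⟨-, h, -⟩
    · exact hne' (congrArg (fun a : X => a.2.2) h)
    · exact hA' h
  · rcases (hg _ _).2 h with h | ⟨h, -, -⟩
    · exact hne' (congrArg (fun a : X => a.2.2) h).symm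
    · exact hA' h

end Pool.Agent.H.MP_930073_lc
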