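import Mathlib

namespace Pool.Agent.H.MP_930073_lc

open MeasureTheory

def IsAnalyticQO {X : Type} [TopologicalSpace X] (R : X → X → Prop) : Prop :=
  (∀ x, R x x) ∧ (∀ x y z, R x y → R y z → R x z) ∧ AnalyticSet {p : X × X | R p.1 p.2}

def BorelRed {X W : Type} [MeasurableSpace X] [MeasurableSpace W] (R : X → X → Prop)
    (T : W → W → Prop) : Prop :=
  ∃ f : X → W, Measurable f ∧ ∀ x y, R x y ↔ T (f x) (f y)

def InvUniversal {X : Type} [MeasurableSpace X] (S E : X → X → Prop) : Prop :=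
  ∀ (W : Type) [TopologicalSpace W] [PolishSpace W] [MeasurableSpace W] [BorelSpace W]
    (R : W → W → Prop), IsAnalyticQO R →
    ∃ B : Set X, MeasurableSet B ∧ (∀ x y, x ∈ B → E x y → y ∈ B) ∧
      BorelRed (fun a b : B => S a.1 b.1) R ∧ BorelRed R (fun a b : B => S a.1 b.1)

end Pool.Agent.H.MP_930073_lc
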